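import Pool.Agent.Helper76.P13.StD
import Pool.Agent.Helper84.P13.D1

/-!
# Project P13, levels `13^n`, module Itr: iteration of the leading forms

Adapted from `Pool/Agent/Helper45/P11/M_Itr.lean`.
-/

set_option autoImplicit false

namespace Pool.Agent.Helper63.P13L

open Pool.Agent.Helper14.CV (Homog EqC act Tl)
open Pool.Agent.Helper28.WK (SymP Tw evw Ok)
open Pool.Agent.Helper84.P13
open Pool.Agent.Helper28.P13
open Pool.Agent.Helper2.P13 (pf13 kP Rel13 S13Rel S13Ex S13Uni S13Sol S13Sor S13Lifp)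
open Pool.Agent.Helper76.P13D

section

variable {r s : ℕ}

/-- the four functions -/
private noncomputable def P (r s : ℕ) (G : ℤ → ℤ → ZMod 13) : Fin 4 → Fn13 (13 ^ r) (13 ^ s) :=
  fun f => pf13 G f

private theorem lw_pow (hl : S13Low0) {O : Module.End (ZMod 13) (Fn13 (13 ^ r) (13 ^ s))} {k : ℤ}
    (hO : Lw O k) (n : ℕ) : Lw (O ^ n) (k * n) := by
  obtain ⟨hm, -, -, -, -, h1, -⟩ := hl r s
  induction n with
  | zero => simpa using h1
  | succ n ih =>
    rw [pow_succ]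
    have := hm _ _ _ _ ih hO
    rwa [show k * n + k = k * (n + 1 : ℕ) by push_cast; ring] at this

private theorem lw_mono (hl : S13Low0) (a b : ℕ) :
    Lw (dX ^ a * dY ^ b : Module.End (ZMod 13) (Fn13 (13 ^ r) (13 ^ s))) ((a : ℤ) + b) := by
  obtain ⟨hm, -, -, -, -, -, hx, hy, -⟩ := hl r s
  have h1 := hm _ _ _ _ (lw_pow hl hx a) (lw_pow hl hy b)
  rwa [one_mul, one_mul] at h1

private theorem lw_Q (hl : S13Low0) : Lw (QoM : Module.End (ZMod 13) (Fn13 (13 ^ r) (13 ^ s))) 2 := by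
  have h := lw_mono (r := r) (s := s) hl 1 1
  norm_num at h
  exact h

private theorem lw_L (hl : S13Low0) : Lw (LoM : Module.End (ZMod 13) (Fn13 (13 ^ r) (13 ^ s))) 14 := by
  have h1 := lw_mono (r := r) (s := s) hl 13 1
  have h2 := lw_mono (r := r) (s := s) hl 7 7
  have h3 := lw_mono (r := r) (s := s) hl 1 13
  norm_num at h1 h2 h3
  exact (hl r s).2.1 _ _ _ ((hl r s).2.1 _ _ _ h1 h2) h3

private theorem lw_M (hl : S13Low0) (c f : ℕ) :
    Lw (MoM c f : Module.End (ZMod 13) (Fn13 (13 ^ r) (13 ^ s))) (nOM c : ℤ) := by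
  unfold MoM
  refine Finset.sum_induction _ (fun O => Lw O (nOM c : ℤ)) ?_ ?_ ?_
  · exact fun O O' h h' => (hl r s).2.1 _ _ _ h h'
  · exact fun d F _ => Submodule.zero_mem _
  · intro i hi
    rw [Finset.mem_range] at hi
    have h := (hl r s).2.2.1 _ ((qOM c f i : ℤ) : ZMod 13) _
      (lw_mono (r := r) (s := s) hl (nOM c - i) i)
    have e : ((nOM c - i : ℕ) : ℤ) + i = nOM c := by
      rw [← Nat.cast_add]
      congr 1
      omega
    rwa [e] at h

private theorem stepL (hl : S13Low0) {O : Module.End (ZMod 13) (Fn13 (13 ^ r) (13 ^ s))} {k e : ℤ}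
    (hO : Lw O k) {F H F' : Fn13 (13 ^ r) (13 ^ s)} (hF : F ∈ Wd13 e) (hH : F - H ∈ Wd13 (e - 1))
    (hF' : F' - O F ∈ Wd13 (e - k - 1)) : F' ∈ Wd13 (e - k) ∧ F' - O H ∈ Wd13 (e - k - 1) := by
  have hmono := (hl r s).2.2.2.2.1
  have h1 : O F ∈ Wd13 (e - k) := hO e F hF
  have h2 : O (F - H) ∈ Wd13 (e - k - 1) := by
    have := hO (e - 1) _ hH
    rwa [show e - 1 - k = e - k - 1 by ring] at this
  constructor
  · have h3 := Submodule.add_mem _ (hmono _ _ (by linarith) hF') h1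
    rwa [sub_add_cancel] at h3
  · have h3 := Submodule.add_mem _ hF' h2
    rwa [map_sub, sub_add_sub_cancel] at h3

/-- the state -/
private def St (r s : ℕ) (e : ℤ) (G : ℤ → ℤ → ZMod 13) (H : Fin 4 → Fn13 (13 ^ r) (13 ^ s)) : Prop :=
  SymP 13 r (s + 1) G ∧ ∀ f : Fin 4, P r s G f ∈ Wd13 e ∧ P r s G f - H f ∈ Wd13 (e - 1)

private theorem okU : ∀ t ∈ UW, ∀ l ∈ t.2, l ∈ PrM := by decide

private theorem okV : ∀ t ∈ VW, ∀ l ∈ t.2, l ∈ PrM := by decide

private theorem okO : ∀ c ≤ 13, ∀ t ∈ OW c, ∀ l ∈ t.2, l ∈ PrM := by decide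

private theorem stU (hr : S13Rel) (hs : TStp) (hl : S13Low0) (hu : TLdU)
    {e : ℤ} {G : ℤ → ℤ → ZMod 13} {H : Fin 4 → Fn13 (13 ^ r) (13 ^ s)} (h : St r s e G H) :
    St r s (e - 2) (cO UW (13 ^ r) G) (fun f => QoM (H f)) := by
  obtain ⟨hG, hF⟩ := h
  obtain ⟨sU, pU⟩ := (hs r s G hG).1 UW okU
  have hR : Rel13 (P r s G) := hr (ZMod 13) _ r s G hG
  refine ⟨sU, fun f => ?_⟩
  have l1 := hu r s e (P r s G) hR (fun f => (hF f).1) f
  have e1 : P r s (cO UW (13 ^ r) G) f = ∑ g : Fin 4, opL (cL UW f g) (P r s G g) := pU f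
  rw [← e1, show e - 3 = e - 2 - 1 by ring] at l1
  exact stepL hl (lw_Q hl) (hF f).1 (hF f).2 l1

private theorem stV (hr : S13Rel) (hs : TStp) (hl : S13Low0) (hv : TLdV)
    {e : ℤ} {G : ℤ → ℤ → ZMod 13} {H : Fin 4 → Fn13 (13 ^ r) (13 ^ s)} (h : St r s e G H) :
    St r s (e - 14) (cO VW (13 ^ r) G) (fun f => LoM (H f)) := by
  obtain ⟨hG, hF⟩ := h
  obtain ⟨sV, pV⟩ := (hs r s G hG).1 VW okV
  have hR : Rel13 (P r s G) := hr (ZMod 13) _ r s G hG
  refine ⟨sV, fun f => ?_⟩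
  have l1 := hv r s e (P r s G) hR (fun f => (hF f).1) f
  have e1 : P r s (cO VW (13 ^ r) G) f = ∑ g : Fin 4, opL (cL VW f g) (P r s G g) := pV f
  rw [← e1, show e - 15 = e - 14 - 1 by ring] at l1
  exact stepL hl (lw_L hl) (hF f).1 (hF f).2 l1

private theorem itU (hr : S13Rel) (hs : TStp) (hl : S13Low0) (hu : TLdU)
    {e : ℤ} {G : ℤ → ℤ → ZMod 13} {H : Fin 4 → Fn13 (13 ^ r) (13 ^ s)} (h : St r s e G H) (i : ℕ) :
    St r s (e - 2 * i) ((cO UW (13 ^ r))^[i] G)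
      (fun f => (QoM ^ i : Module.End (ZMod 13) (Fn13 (13 ^ r) (13 ^ s))) (H f)) := by
  induction i with
  | zero => simpa using h
  | succ i ih =>
    have h4 := stU hr hs hl hu ih
    have hp : (QoM ^ (i + 1) : Module.End (ZMod 13) (Fn13 (13 ^ r) (13 ^ s))) = QoM * QoM ^ i :=
      pow_succ' _ _
    have e2 : e - 2 * ((i + 1 : ℕ) : ℤ) = e - 2 * i - 2 := by push_cast; ring
    rw [Function.iterate_succ_apply', hp, e2]
    exact h4

private theorem itV (hr : S13Rel) (hs : TStp) (hl : S13Low0) (hv : TLdV)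
    {e : ℤ} {G : ℤ → ℤ → ZMod 13} {H : Fin 4 → Fn13 (13 ^ r) (13 ^ s)} (h : St r s e G H) (j : ℕ) :
    St r s (e - 14 * j) ((cO VW (13 ^ r))^[j] G)
      (fun f => (LoM ^ j : Module.End (ZMod 13) (Fn13 (13 ^ r) (13 ^ s))) (H f)) := by
  induction j with
  | zero => simpa using h
  | succ j ih =>
    have h4 := stV hr hs hl hv ih
    have hp : (LoM ^ (j + 1) : Module.End (ZMod 13) (Fn13 (13 ^ r) (13 ^ s))) = LoM * LoM ^ j :=
      pow_succ' _ _
    have e2 : e - 14 * ((j + 1 : ℕ) : ℤ) = e - 14 * j - 14 := by push_cast; ring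
    rw [Function.iterate_succ_apply', hp, e2]
    exact h4

private theorem kill (hl : S13Low0) {O : Module.End (ZMod 13) (Fn13 (13 ^ r) (13 ^ s))} {k e : ℤ}
    (hO : Lw O k) {F : Fn13 (13 ^ r) (13 ^ s)} (hF : F ∈ Wd13 e) (h : e < k) : O F = 0 := by
  have hmono := (hl r s).2.2.2.2.1
  have hz : ∀ F : Fn13 (13 ^ r) (13 ^ s), F ∈ Wd13 (-1) → F = 0 :=
    (hl r s).2.2.2.2.2.2.2.2.2.2.2.2.2
  exact hz _ (hmono _ (-1) (by linarith [Int.add_one_le_of_lt h]) (hO e F hF))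

private theorem dg_eq (c i j : ℕ) : dgM c i j = nOM c + 2 * i + 14 * j := by
  unfold dgM nOM
  omega

end

/-- **ITR.** -/
theorem hItr (hr : S13Rel) (hs : TStp) (hu : TLdU) (hv : TLdV) (ho : TOm) : TItr := by
  have hl : S13Low0 := low0
  intro r s G d hG hF0 c i j hc
  have hmono := (hl r s).2.2.2.2.1
  have h0 : St r s (d : ℤ) G (P r s G) := by
    refine ⟨hG, fun f => ⟨hF0 f, ?_⟩⟩
    rw [sub_self]
    exact Submodule.zero_mem _
  have hK := itU hr hs hl hu (itV hr hs hl hv h0 j) i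
  set K : ℤ → ℤ → ZMod 13 := (cO UW (13 ^ r))^[i] ((cO VW (13 ^ r))^[j] G) with hKd
  obtain ⟨kG, kF⟩ := hK
  have kR : Rel13 (P r s K) := hr (ZMod 13) _ r s K kG
  obtain ⟨hW, hval⟩ := hs r s K kG
  have hO := (hW (OW c) (okO c hc)).2
  have ev : evM (13 ^ r) G c i j = P r s (cO (OW c) (13 ^ r) K) 0 0 0 :=
    (hval (cO (OW c) (13 ^ r) K)).symm
  have hOc : P r s (cO (OW c) (13 ^ r) K) 0 = ∑ f : Fin 4, opL (cL (OW c) 0 f) (P r s K f) := hO 0
  have evM' : (d : ℤ) - 14 * j - 2 * i ≤ nOM c →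
      evM (13 ^ r) G c i j = ∑ f : Fin 4, (MoM c f.val (P r s K f)) 0 0 := by
    intro h4
    rw [ev, hOc]
    exact ho r s c (P r s K) hc kR (fun f => hmono _ _ h4 (kF f).1)
  have hdg := dg_eq c i j
  refine ⟨fun hlt => ?_, fun heq => ?_⟩
  · have hlt' : (d : ℤ) - 14 * j - 2 * i < nOM c := by
      rw [hdg] at hlt
      have : (d : ℤ) < nOM c + 2 * i + 14 * j := by exact_mod_cast hlt
      linarith
    rw [evM' hlt'.le]
    refine Finset.sum_eq_zero fun f _ => ?_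
    rw [kill hl (lw_M hl c f.val) (kF f).1 hlt']
    rfl
  · have heq' : (d : ℤ) - 14 * j - 2 * i = nOM c := by
      rw [hdg] at heq
      have : (nOM c + 2 * i + 14 * j : ℤ) = d := by exact_mod_cast heq
      linarith
    rw [evM' heq'.le]
    refine Finset.sum_congr rfl fun f _ => ?_
    have h1 := kill hl (lw_M hl c f.val) (kF f).2 (by linarith)
    rw [map_sub, sub_eq_zero] at h1
    rw [h1]
    rfl

end Pool.Agent.Helper63.P13L
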